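import Mathlib
import Pool.Agent.Helper60.DiagSemigroup
import Pool.Agent.Helper50.SLO.Props

/-!
A strongly stable diagonal contraction semigroup on `ℓ²` all of whose weak orbits are smaller than
`exp (-√t / 2)` at arbitrarily late times: the answer to the question is negative.
-/

set_option autoImplicit false

open Filter Topology NNReal

namespace Pool.Agent.Results.MP_3fe7c1_an.SubexponentialOrbits

section general

variable {X : Type} [NormedAddCommGroup X] [NormedSpace ℂ X]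

/-- `T` is a strongly continuous one-parameter semigroup of bounded operators on `X` -/
structure IsC0Semigroup (T : ℝ≥0 → X →L[ℂ] X) : Prop where
  zero : T 0 = 1
  add : ∀ s t : ℝ≥0, T (s + t) = T s * T t
  continuous : ∀ x : X, Continuous fun t : ℝ≥0 => T t x

/-- all operators have norm at most one -/
def IsContractive (T : ℝ≥0 → X →L[ℂ] X) : Prop := ∀ t : ℝ≥0, ‖T t‖ ≤ 1

/-- strong stability -/
def IsStronglyStable (T : ℝ≥0 → X →L[ℂ] X) : Prop :=
  ∀ x : X, Tendsto (fun t : ℝ≥0 => T t x) atTop (𝓝 0)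

/-- weak stability -/
def IsWeaklyStable (T : ℝ≥0 → X →L[ℂ] X) : Prop :=
  ∀ (x : X) (y : X →L[ℂ] ℂ), Tendsto (fun t : ℝ≥0 => y (T t x)) atTop (𝓝 0)

/-- exponential stability -/
def IsExponentiallyStable (T : ℝ≥0 → X →L[ℂ] X) : Prop :=
  ∃ M ε : ℝ, 1 ≤ M ∧ 0 < ε ∧ ∀ t : ℝ≥0, ‖T t‖ ≤ M * Real.exp (-ε * (t : ℝ))

/-- every weak orbit is smaller than `a` at arbitrarily late times -/
def OrbitsDropBelow (a : ℝ≥0 → ℝ) (T : ℝ≥0 → X →L[ℂ] X) : Prop :=
  ∀ (x : X) (y : X →L[ℂ] ℂ) (t₀ : ℝ≥0), ∃ t : ℝ≥0, t₀ ≤ t ∧ ‖y (T t x)‖ < a t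

end general

/-- all operators are normal -/
def IsNormal {X : Type} [NormedAddCommGroup X] [InnerProductSpace ℂ X] [CompleteSpace X]
    (T : ℝ≥0 → X →L[ℂ] X) : Prop := ∀ t : ℝ≥0, IsStarNormal (T t)

/-- admissible rates -/
structure IsAdmissibleRate (a : ℝ≥0 → ℝ) : Prop where
  pos : ∀ t, 0 < a t
  antitone : Antitone a
  tendsto : Tendsto a atTop (𝓝 0)

/-- the Hilbert space `ℓ²(ℕ, ℂ)` -/
abbrev L2 : Type := lp (fun _ : ℕ => ℂ) 2

/-- `T t` is the diagonal operator with entries `exp (ev k * t)` -/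
def IsDiagonal (ev : ℕ → ℂ) (T : ℝ≥0 → L2 →L[ℂ] L2) : Prop :=
  ∀ (t : ℝ≥0) (x : L2) (k : ℕ), (T t x) k = Complex.exp (ev k * ((t : ℝ) : ℂ)) * x k

/-- The `C₀`-semigroup on `ℓ²`, `(T t x)_k = exp ((-1 / (k + 1) + 2 π i 2 ^ (k (k + 1))) t) x_k`, of
normal contractions is strongly stable (hence weakly stable) and not exponentially stable, and
for every `x`, every continuous linear functional `y` and every `t₀` there is `t ≥ t₀` with
`|⟨T t x, y⟩| < exp (-√t / 2)`; the function on the right is an admissible rate. -/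
theorem result :
    IsAdmissibleRate (fun t : ℝ≥0 => Real.exp (-(Real.sqrt t / 2))) ∧
    ∃ T : ℝ≥0 → L2 →L[ℂ] L2,
      IsC0Semigroup T ∧
      IsDiagonal
        (fun k => -(1 / ((k : ℂ) + 1)) + 2 * (Real.pi : ℂ) * 2 ^ (k * (k + 1)) * Complex.I) T ∧
      IsContractive T ∧ IsNormal T ∧ IsStronglyStable T ∧ IsWeaklyStable T ∧
      ¬ IsExponentiallyStable T ∧
      OrbitsDropBelow (fun t : ℝ≥0 => Real.exp (-(Real.sqrt t / 2))) T := by
  refine ⟨⟨fun t => Real.exp_pos _, Pool.Agent.Helper50.SLO.rate_antitone,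
    Pool.Agent.Helper50.SLO.rate_tendsto⟩, Pool.Agent.Helper60.SlowOrbit.T,
    ⟨Pool.Agent.Helper60.SlowOrbit.T_zero, Pool.Agent.Helper60.SlowOrbit.T_add,
      Pool.Agent.Helper60.SlowOrbit.T_continuous⟩, fun t x k => ?_,
    Pool.Agent.Helper50.SLO.norm_T_le_one, Pool.Agent.Helper50.SLO.normal,
    Pool.Agent.Helper50.SLO.strongly_stable, Pool.Agent.Helper60.SlowOrbit.weakly_stable, ?_,
    Pool.Agent.Helper50.SLO.late⟩
  · rw [Pool.Agent.Helper60.SlowOrbit.T_apply, Pool.Agent.Helper50.SLO.mult_eq]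
  · rintro ⟨M, ε, -, hε, h⟩
    exact Pool.Agent.Helper60.SlowOrbit.not_exp_stable ⟨M, ε, hε, h⟩

end Pool.Agent.Results.MP_3fe7c1_an.SubexponentialOrbits
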